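import Pool.Agent.Lib.PlCov.Main

/-!
# Kratochvil's planar cover conjecture fails (unless P = NP)

`H` (in `Pool.Agent.Lib.PlCov.Defs`) is a connected planar graph with 52 vertices.
-/

set_option autoImplicit false

namespace Pool.Agent.Results.MP_b84816_lc.PlanarCoverCounterexample

open Turing Pool.Agent.PlCov Pool.Agent.Lib.CookLevin Pool.Agent.OOD

/-- **Main theorem.** The graph `H` is connected and planar (so it is a planar cover of itself),
COVER(H) is NP-complete, and PLANARCOVER(H) is in P. So, if P ≠ NP: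
* PLANARCOVER(H) is not NP-hard, as a language;
* PLANARCOVER(H) is not NP-hard, as a problem whose instances are the planar graphs;
* it is not true that for all finite graphs `K` PLANARCOVER(K) is NP-complete if and only if COVER(K) is
  NP-complete and `K` has a planar cover. -/
theorem result :
    (H.Connected ∧ IsPlanar H ∧ HasPlanarCover H) ∧
    NPComplete (CoverLang H) ∧
    InP (PlanarCoverLang H) ∧
    (¬ PeqNP →
      ¬ NPHard (PlanarCoverLang H) ∧
      (¬ ∀ L : Word → Prop, InNP L → ∃ f : Word → (Σ n, SimpleGraph (Fin n)),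
        Nonempty (TM2ComputableInPolyTime (id : Word → List Bool) encodeGraph f) ∧
        (∀ x, IsPlanar (f x).2) ∧ ∀ x, L x ↔ Covers (f x).2 H) ∧
      ¬ ∀ (W : Type) [Finite W] (K : SimpleGraph W),
        NPComplete (PlanarCoverLang K) ↔ (NPComplete (CoverLang K) ∧ HasPlanarCover K)) := by
  refine ⟨⟨connected_H, isPlanar_H, hasPlanarCover_H⟩, npComplete_coverLang,
    inP_planarCoverLang, fun hne => ?_⟩
  have h1 : ¬ NPHard (PlanarCoverLang H) := fun h =>
    hne (peqNP_of_npHard inP_planarCoverLang h)
  refine ⟨h1, fun h => h1 fun L hL => ?_, fun h => ?_⟩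
  · obtain ⟨f, ⟨hf⟩, hp, hf'⟩ := h L hL
    refine ⟨fun x => encodeGraph (f x), ⟨⟨hf.toTM2ComputableAux, hf.time, hf.outputsFun⟩⟩,
      fun x => ?_⟩
    rw [hf' x]
    constructor
    · intro hc
      exact ⟨f x, rfl, hp x, hc⟩
    · rintro ⟨G, hG, -, hc⟩
      rw [encodeGraph_injective hG]
      exact hc
  · exact h1 ((h HV H).2 ⟨npComplete_coverLang, hasPlanarCover_H⟩).2

end Pool.Agent.Results.MP_b84816_lc.PlanarCoverCounterexample
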